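import Mathlib

set_option autoImplicit false
open MvPolynomial

namespace Pool.Agent.Results.MP_698df0_al.Fails

/-- position in the list 0, -1, 1, -2, 2, ... -/
def rk (a : ℤ) : ℕ := if a < 0 then 2 * a.natAbs - 1 else 2 * a.natAbs

def M (a c : ℤ) : ℤ :=
  if _h : 0 < a * c ∧ rk (a - c) < rk a then M (a - c) c + 1
  else if _h' : a * c < 0 ∧ rk (a + c) < rk a then M (a + c) c - 1 else 0
termination_by rk a
decreasing_by exacts [_h.2, _h'.2]

def L (c : ℤ) : ℤ := if Even c then |c| / 2 else -((|c| + 1) / 2)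

def LCR (c₁ c₂ : ℤ) : ℤ := if rk (L c₁) < rk (L c₂) then L c₂ else L c₁

variable {n : ℕ} (m : MonomialOrder (Fin n))

abbrev R (n : ℕ) : Type := MvPolynomial (Fin n) ℤ

/-- one reduction step -/
def Red (F : Finset (R n)) (g h : R n) : Prop :=
  ∃ f ∈ F, f ≠ 0 ∧ ∃ (b : ℤ) (u : Fin n →₀ ℕ), coeff (u + m.degree f) g ≠ 0 ∧
    rk (coeff (u + m.degree f) g - b * m.leadingCoeff f) < rk (coeff (u + m.degree f) g) ∧
    h = g - monomial u b * f

def Irred (F : Finset (R n)) (g : R n) : Prop := ¬ ∃ h, Red m F g h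

def IsNF (S : Finset (R n) → R n → R n) : Prop :=
  ∀ F g, Relation.ReflTransGen (Red m F) g (S F g) ∧ Irred m F (S F g)

def IsGB (F : Finset (R n)) : Prop :=
  ∀ g, ∃! h, Relation.ReflTransGen (Red m F) g h ∧ Irred m F h

/-- the member of the critical pair of f and f' that belongs to f -/
noncomputable def crit (a : ℤ) (U : Fin n →₀ ℕ) (f : R n) : R n :=
  monomial U a - monomial (U - m.degree f) (M a (m.leadingCoeff f)) * f

noncomputable def spoly (f₁ f₂ : R n) : R n :=
  crit m (LCR (m.leadingCoeff f₁) (m.leadingCoeff f₂)) (m.degree f₁ ⊔ m.degree f₂) f₁ -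
    crit m (LCR (m.leadingCoeff f₁) (m.leadingCoeff f₂)) (m.degree f₁ ⊔ m.degree f₂) f₂

open Classical in
/-- one pass through the loop of the modified algorithm -/
def Step (S : Finset (R n) → R n → R n) (s t : Finset (R n) × Finset (Sym2 (R n))) : Prop :=
  ∃ f₁ f₂, s(f₁, f₂) ∈ s.2 ∧
    t = if S s.1 (spoly m f₁ f₂) = 0 then (s.1, s.2.erase s(f₁, f₂))
      else (insert (S s.1 (spoly m f₁ f₂)) s.1,
        s.2.erase s(f₁, f₂) ∪ s.1.image fun g => s(g, S s.1 (spoly m f₁ f₂)))

lemma rk_zero (a : ℤ) : ¬ rk a < rk 0 := by simp [rk]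

lemma wf (F : Finset (R n)) : WellFounded fun h g => Red m F g h := by
  classical
  have h0 := Finsupp.Lex.wellFounded' (α := m.syn) (N := ℤ) (r := (· > ·))
    (s := fun a b => rk a < rk b) (fun a => rk_zero a) (InvImage.wf rk Nat.lt_wfRel.wf)
    wellFounded_lt
  refine Subrelation.wf ?_ (InvImage.wf
    (fun g : R n => Finsupp.equivMapDomain m.toSyn.toEquiv (AddMonoidAlgebra.coeff g)) h0)
  rintro h g ⟨f, -, -, b, u, -, hlt, rfl⟩
  have hc : ∀ (p : R n) (j : m.syn),
      Finsupp.equivMapDomain m.toSyn.toEquiv (AddMonoidAlgebra.coeff p) j =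
        coeff (m.toSyn.symm j) p := fun p j => rfl
  refine ⟨m.toSyn (u + m.degree f), fun j hj => ?_, ?_⟩
  · simp only [hc, coeff_sub, coeff_monomial_mul']
    split_ifs with hu
    · rw [m.coeff_eq_zero_of_lt (f := f), mul_zero, sub_zero]
      have e : m.toSyn.symm j = u + (m.toSyn.symm j - u) := (add_tsub_cancel_of_le hu).symm
      have e2 : j = m.toSyn u + m.toSyn (m.toSyn.symm j - u) := by
        rw [← map_add, ← e, AddEquiv.apply_symm_apply]
      have hj' : m.toSyn (u + m.degree f) < j := hj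
      rw [e2, map_add] at hj'
      exact lt_of_add_lt_add_left hj'
    · simp
  · simp only [hc, AddEquiv.symm_apply_apply, coeff_sub, coeff_monomial_mul]
    exact hlt

lemma exists_nf (F : Finset (R n)) (g : R n) :
    ∃ h, Relation.ReflTransGen (Red m F) g h ∧ Irred m F h := by
  induction g using (wf m F).induction with
  | _ g ih =>
    by_cases hg : Irred m F g
    · exact ⟨g, .refl, hg⟩
    · obtain ⟨h, hh⟩ := not_not.1 hg
      obtain ⟨k, hk, hk'⟩ := ih h hh
      exact ⟨k, .head hh hk, hk'⟩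

lemma irred_zero (F : Finset (R n)) : Irred m F 0 := by
  rintro ⟨h, f, -, -, b, u, hne, -⟩
  simp at hne

lemma eq_of_irred {F : Finset (R n)} {g h : R n} (hg : Irred m F g)
    (hh : Relation.ReflTransGen (Red m F) g h) : h = g := by
  rcases hh.cases_head with rfl | ⟨k, hk, -⟩
  · rfl
  · exact absurd ⟨k, hk⟩ hg

lemma red_mono (F : Finset (R n)) (U : Fin n →₀ ℕ) (a c b : ℤ) (hc : c ≠ 0)
    (hF : monomial U c ∈ F) (ha : a ≠ 0) (h : rk (a - b * c) < rk a) :
    Red m F (monomial U a) (monomial U (a - b * c)) := by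
  classical
  refine ⟨_, hF, by simpa using hc, b, 0, ?_, ?_, ?_⟩
  · simpa [m.degree_monomial, hc] using ha
  · simpa [m.degree_monomial, hc] using h
  · rw [monomial_mul, zero_add, map_sub]

lemma spoly_mono (U : Fin n →₀ ℕ) (c d : ℤ) (hc : c ≠ 0) (hd : d ≠ 0) :
    spoly m (monomial U c) (monomial U d) =
      monomial U (M (LCR c d) d * d - M (LCR c d) c * c) := by
  classical
  simp only [spoly, crit, m.leadingCoeff_monomial, m.degree_monomial, hc, hd, if_false,
    sup_idem, tsub_self, monomial_mul, zero_add, map_sub]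
  ring

lemma M43 : M 4 3 = 1 := by
  rw [M, dif_pos (by decide), M, dif_neg (by decide), dif_neg (by decide)]; rfl

lemma M48 : M 4 8 = 1 := by
  rw [M, dif_pos (by decide), M, dif_neg (by decide), dif_neg (by decide)]; rfl

open Classical in
theorem result (U : Fin n →₀ ℕ) (F : Finset (R n)) (hF : F = {monomial U 3, monomial U 8}) :
    ¬ IsGB m F ∧ ∃ S, IsNF m S ∧ ∀ B ⊆ F.sym2,
      Relation.ReflTransGen (Step m S) (F, B) (F, ∅) ∧
      ∀ t, Relation.ReflTransGen (Step m S) (F, B) t → t.1 = F := by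
  have h3 : monomial U (3 : ℤ) ∈ F := by simp [hF]
  have h8 : monomial U (8 : ℤ) ∈ F := by simp [hF]
  have r5 : Relation.ReflTransGen (Red m F) (monomial U 5) 0 := by
    have a := red_mono m F U 5 8 1 (by decide) h8 (by decide) (by decide)
    have b := red_mono m F U (5 - 1 * 8) 3 (-1) (by decide) h3 (by decide) (by decide)
    refine .head a (.head b ?_)
    norm_num
    exact .refl
  have r5' : Relation.ReflTransGen (Red m F) (monomial U (-5)) 0 := by
    have a := red_mono m F U (-5) 8 (-1) (by decide) h8 (by decide) (by decide)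
    have b := red_mono m F U (-5 - (-1) * 8) 3 1 (by decide) h3 (by decide) (by decide)
    refine .head a (.head b ?_)
    norm_num
    exact .refl
  refine ⟨fun hGB => ?_, ?_⟩
  · have a := red_mono m F U 5 3 2 (by decide) h3 (by decide) (by decide)
    have hi : Irred m F (monomial U (5 - 2 * 3)) := by
      rintro ⟨h, f, hf, -, b, u, hne, hlt, -⟩
      have hU : u + m.degree f = U := by
        by_contra hh
        rw [coeff_monomial, if_neg (Ne.symm hh)] at hne
        exact hne rfl
      rw [hU, coeff_monomial, if_pos rfl] at hlt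
      simp only [hF, Finset.mem_insert, Finset.mem_singleton] at hf
      rcases hf with rfl | rfl <;> rw [m.leadingCoeff_monomial] at hlt <;> unfold rk at hlt <;>
        split_ifs at hlt <;> omega
    have := (hGB (monomial U 5)).unique ⟨r5, irred_zero m F⟩ ⟨.single a, hi⟩
    have := congrArg (coeff U) this
    simp at this
  · let S : Finset (R n) → R n → R n := fun G g =>
      if G = F ∧ (g = monomial U 5 ∨ g = monomial U (-5)) then 0 else (exists_nf m G g).choose
    have hS : IsNF m S := by
      intro G g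
      by_cases h : G = F ∧ (g = monomial U 5 ∨ g = monomial U (-5))
      · simp only [S, if_pos h]
        obtain ⟨rfl, rfl | rfl⟩ := h
        exacts [⟨r5, irred_zero m _⟩, ⟨r5', irred_zero m _⟩]
      · simp only [S, if_neg h]
        exact (exists_nf m G g).choose_spec
    have h0 : S F 0 = 0 := eq_of_irred m (irred_zero m F) (hS F 0).1
    have hz : ∀ f₁ ∈ F, ∀ f₂ ∈ F, S F (spoly m f₁ f₂) = 0 := by
      intro f₁ h₁ f₂ h₂
      simp only [hF, Finset.mem_insert, Finset.mem_singleton] at h₁ h₂
      rcases h₁ with rfl | rfl <;> rcases h₂ with rfl | rfl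
      · rw [spoly, sub_self, h0]
      · rw [spoly_mono m U 3 8 (by decide) (by decide), show LCR 3 8 = 4 by decide, M43, M48]
        exact if_pos ⟨rfl, .inl (by norm_num)⟩
      · rw [spoly_mono m U 8 3 (by decide) (by decide), show LCR 8 3 = 4 by decide, M43, M48]
        exact if_pos ⟨rfl, .inr (by norm_num)⟩
      · rw [spoly, sub_self, h0]
    have hstep : ∀ B ⊆ F.sym2, ∀ f₁ f₂, s(f₁, f₂) ∈ B → S F (spoly m f₁ f₂) = 0 := by
      intro B hB f₁ f₂ h
      have := Finset.mk_mem_sym2_iff.1 (hB h)
      exact hz _ this.1 _ this.2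
    refine ⟨S, hS, fun B hB => ⟨?_, fun t ht => ?_⟩⟩
    · induction B using Finset.induction_on with
      | empty => exact .refl
      | insert p B hp ih =>
        induction p using Sym2.ind with
        | _ f₁ f₂ =>
          refine .head ⟨f₁, f₂, Finset.mem_insert_self _ _, ?_⟩
            (ih ((Finset.subset_insert _ _).trans hB))
          rw [if_pos (hstep _ hB _ _ (Finset.mem_insert_self _ _)), Finset.erase_insert hp]
    · suffices t.1 = F ∧ t.2 ⊆ F.sym2 from this.1
      induction ht with
      | refl => exact ⟨rfl, hB⟩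
      | tail _ hbc ih =>
        obtain ⟨f₁, f₂, hm, rfl⟩ := hbc
        rw [if_pos (by rw [ih.1]; exact hstep _ ih.2 _ _ hm)]
        exact ⟨ih.1, (Finset.erase_subset _ _).trans ih.2⟩

end Pool.Agent.Results.MP_698df0_al.Fails
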